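import Pool.Agent.Work.MP_d02fb9_lc.Main

namespace Pool.Agent.Work.MP_d02fb9_lc.Variants.BoundBeyondFixedPoints

open Cardinal Pool.Agent.Work.MP_d02fb9_lc

/-- If `κ ≥ 𝔡` lies countably many cardinals above a fixed point `ρ` of `cof([·]^ℵ₀)`, then closed
discrete subspaces of regular strongly star-Menger spaces have size less than `κ`. -/
theorem result (ρ κ : Cardinal.{0}) (hfix : cofCtble ρ = ρ) (hρκ : ρ ≤ κ)
    (hc : (Set.Icc ρ κ).Countable) (hd : domNum ≤ κ)
    (X : Type) [TopologicalSpace X] [T3Space X] (hX : StronglyStarMenger X)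
    (D : Set X) (hD : IsClosed D) [DiscreteTopology D] : #D < κ :=
  mk_lt_of_countable_Icc hfix.le hρκ hd hc hX hD

end Pool.Agent.Work.MP_d02fb9_lc.Variants.BoundBeyondFixedPoints
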