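import Pool.Agent.Work.MP_d02fb9_lc.Main

namespace Pool.Agent.Work.MP_d02fb9_lc.Variants.BoundWhenBEqD

open Cardinal Pool.Agent.Work.MP_d02fb9_lc

/-- If `𝔟 = 𝔡` then closed discrete subspaces of regular strongly star-Menger spaces have size
less than `𝔡`. -/
theorem result (h : bddNum = domNum)
    (X : Type) [TopologicalSpace X] [T3Space X] (hX : StronglyStarMenger X)
    (D : Set X) (hD : IsClosed D) [DiscreteTopology D] : #D < domNum :=
  mk_lt_of_bdd_eq_dom h hX hD

end Pool.Agent.Work.MP_d02fb9_lc.Variants.BoundWhenBEqD
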